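import Pool.Agent.H70.OQ.Targets

/-!
# MP_0f8dca_lc: module IDG
-/

set_option autoImplicit false

namespace Pool.Agent.H77.OQ.IDG

open Finset Pool.Agent.H6.NB Pool.Agent.H70.OQ

theorem idg (h1 : T_BS0) (h2 : T_STH) (h3 : T_LST) (h4 : T_EXG) : T_IDG := by
  classical
  intro W X B Ω _ _ _ _ _ T U acc lev h S t d w r k δ δm hL hacc hP hbase hδm
  have htot : (0 : ℝ) ≤ (Fintype.card W : ℝ) * 2 ^ Fintype.card Ω := by positivity
  have key : ∀ j, j ≤ h → ∀ G : Gn B Ω, Fj lev S t d j G →
      ((univ.filter fun p : W × (Ω → Bool) => TyG acc lev h k j (T p.1) (U p.1) p.2 ∧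
        k j < (dfx acc h G (T p.1) (U p.1) p.2).card).card : ℝ) ≤
      δ j * (Fintype.card W * 2 ^ Fintype.card Ω) := by
    intro j
    induction j with
    | zero =>
      intro _ G hG
      refine le_trans (le_of_eq ?_) (h1 W X B Ω T U acc lev h S t d (k 0) k (δ 0) hL ?_ G hG)
      · congr!
      · intro f hf
        refine le_trans (le_of_eq ?_) (hbase f hf)
        congr!
    | succ j ih =>
      intro hj G hG
      have hj' : j < h := by omega
      have hA := ih hj'.le
      have hB := h2 W X B Ω T U acc lev h S t d j (k j) k (δ j) hL hj' (fun G' hG' => by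
        refine le_trans (le_of_eq ?_) (hA G' hG')
        congr!) G hG
      have hC := h3 W X B Ω T U acc lev h S t d j (w j) (r j) (k (j + 1)) k (δ j) G hL hG
        hP.t_pos (hP.k_pos j) (hP.w_pos j) (hP.kS j hj') hB
      refine le_trans (le_trans (le_of_eq ?_) hC) ?_
      · congr!
      · exact mul_le_mul_of_nonneg_right (hP.dS j hj') htot
  have hsub : (univ.filter fun p : W × (Ω → Bool) => ¬ TyG acc lev h k h (T p.1) (U p.1) p.2) ⊆
      univ.biUnion fun s : Ω => univ.filter fun p : W × (Ω → Bool) =>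
        TyG acc lev h k (lev s) (T p.1) (U p.1) p.2 ∧
          k (lev s) < (dfx acc h (acc s) (T p.1) (U p.1) p.2).card := by
    intro p hp
    rw [Finset.mem_filter] at hp
    have hne : ∃ s : Ω, ¬ (dsG acc h (T p.1) (U p.1) p.2 s).card ≤ k (lev s) := by
      by_contra hcon
      push Not at hcon
      exact hp.2 fun s _ => hcon s
    obtain ⟨s, hs, hmin⟩ := (Finset.exists_min_image (univ.filter fun s : Ω =>
      ¬ (dsG acc h (T p.1) (U p.1) p.2 s).card ≤ k (lev s)) lev (by
        obtain ⟨s, hs⟩ := hne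
        exact ⟨s, Finset.mem_filter.mpr ⟨Finset.mem_univ _, hs⟩⟩))
    rw [Finset.mem_filter] at hs
    refine Finset.mem_biUnion.mpr ⟨s, Finset.mem_univ _, Finset.mem_filter.mpr
      ⟨Finset.mem_univ _, ?_, ?_⟩⟩
    · intro s' hs'
      by_contra hcon
      have := hmin s' (Finset.mem_filter.mpr ⟨Finset.mem_univ _, hcon⟩)
      omega
    · have h5 : dfx acc h (acc s) (T p.1) (U p.1) p.2 = dsG acc h (T p.1) (U p.1) p.2 s := by
        unfold dfx dsG
        refine Finset.filter_congr fun x _ => ?_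
        rw [(h4 B Ω acc lev h hL).2.2.1 (T p.1) (U p.1 x) p.2 s]
        generalize acc s (U p.1 x) (exG acc h (T p.1) (U p.1 x) p.2) = a
        generalize acc s (T p.1) p.2 = b
        cases a <;> cases b <;> simp
      rw [h5]
      have := hs.2
      omega
  have hδ : ∀ s : Ω, δ (lev s) ≤ δm := fun s => hδm _ (hL.lt s)
  calc ((univ.filter fun p : W × (Ω → Bool) => ¬ TyG acc lev h k h (T p.1) (U p.1) p.2).card : ℝ)
      ≤ ((univ.biUnion fun s : Ω => univ.filter fun p : W × (Ω → Bool) =>
        TyG acc lev h k (lev s) (T p.1) (U p.1) p.2 ∧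
          k (lev s) < (dfx acc h (acc s) (T p.1) (U p.1) p.2).card).card : ℝ) :=
        Nat.cast_le.mpr (Finset.card_le_card hsub)
    _ ≤ ((∑ s : Ω, (univ.filter fun p : W × (Ω → Bool) =>
        TyG acc lev h k (lev s) (T p.1) (U p.1) p.2 ∧
          k (lev s) < (dfx acc h (acc s) (T p.1) (U p.1) p.2).card).card : ℕ) : ℝ) :=
        Nat.cast_le.mpr Finset.card_biUnion_le
    _ = ∑ s : Ω, ((univ.filter fun p : W × (Ω → Bool) =>
        TyG acc lev h k (lev s) (T p.1) (U p.1) p.2 ∧
          k (lev s) < (dfx acc h (acc s) (T p.1) (U p.1) p.2).card).card : ℝ) := by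
        rw [Nat.cast_sum]
    _ ≤ ∑ _s : Ω, δm * ((Fintype.card W : ℝ) * 2 ^ Fintype.card Ω) := by
        refine Finset.sum_le_sum fun s _ => ?_
        exact (key (lev s) (hL.lt s).le (acc s) (hacc s)).trans
          (mul_le_mul_of_nonneg_right (hδ s) htot)
    _ = Fintype.card Ω * (δm * (Fintype.card W * 2 ^ Fintype.card Ω)) := by
        rw [Finset.sum_const, Finset.card_univ, nsmul_eq_mul]

end Pool.Agent.H77.OQ.IDG
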