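import Pool.Agent.H70.OQ.Targets

/-!
# MP_0f8dca_lc: module LST
-/

set_option autoImplicit false

namespace Pool.Agent.H77.OQ.LST

open Finset Pool.Agent.H6.NB Pool.Agent.H70.OQ

section

variable {W X B Ω : Type} [Fintype W] [Fintype X] [DecidableEq X] [Fintype Ω] [DecidableEq Ω]

open Classical in
/-- double counting -/
theorem dcount (h2 : T_FLG) (T : W → B → Bool) (U : W → X → B → Bool) (acc : Ω → Gn B Ω)
    (lev : Ω → ℕ) (h j : ℕ) (K : ℕ → ℕ) (G : Gn B Ω) (hL : Lvg acc lev h)
    (hG : LocG lev (j + 1) G) (Q : W → (Ω → Bool) → Prop) :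
    ∑ p ∈ univ.filter (fun p : W × (Ω → Bool) => TyG acc lev h K (j + 1) (T p.1) (U p.1) p.2),
        ((univ.filter fun z : X → Bool =>
          Q p.1 (flG acc lev h (T p.1) (U p.1) j p.2 z)).card : ℝ) =
      2 ^ Fintype.card X * ((univ.filter fun p : W × (Ω → Bool) =>
        TyG acc lev h K (j + 1) (T p.1) (U p.1) p.2 ∧ Q p.1 p.2).card : ℝ) := by
  rw [← Nat.cast_sum]
  have h3 := Finset.sum_card_bipartiteAbove_eq_sum_card_bipartiteBelow
    (s := univ.filter (fun p : W × (Ω → Bool) => TyG acc lev h K (j + 1) (T p.1) (U p.1) p.2))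
    (t := (univ : Finset (X → Bool)))
    (fun p z => Q p.1 (flG acc lev h (T p.1) (U p.1) j p.2 z))
  unfold Finset.bipartiteAbove Finset.bipartiteBelow at h3
  rw [h3]
  have h4 : ∀ z : X → Bool, ((univ.filter (fun p : W × (Ω → Bool) =>
      TyG acc lev h K (j + 1) (T p.1) (U p.1) p.2)).filter fun p =>
        Q p.1 (flG acc lev h (T p.1) (U p.1) j p.2 z)).card =
      (univ.filter fun p : W × (Ω → Bool) =>
        TyG acc lev h K (j + 1) (T p.1) (U p.1) p.2 ∧ Q p.1 p.2).card := by
    intro z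
    have hf := fun p : W => fun e : Ω → Bool =>
      h2 X B Ω acc lev h j K G (T p) (U p) e hL hG
    refine Finset.card_nbij' (fun p => (p.1, flG acc lev h (T p.1) (U p.1) j p.2 z))
      (fun p => (p.1, flG acc lev h (T p.1) (U p.1) j p.2 z)) ?_ ?_ ?_ ?_
    · intro p hp
      simp only [Finset.coe_filter, Finset.mem_filter, Finset.mem_univ, true_and,
        Set.mem_ofPred_eq] at hp ⊢
      exact ⟨((hf p.1 p.2).2.2.1 z).mpr hp.1, hp.2⟩
    · intro p hp
      simp only [Finset.coe_filter, Finset.mem_filter, Finset.mem_univ, true_and,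
        Set.mem_ofPred_eq] at hp ⊢
      rw [(hf p.1 p.2).2.1 z]
      exact ⟨((hf p.1 p.2).2.2.1 z).mpr hp.1, hp.2⟩
    · intro p _
      simp only [(hf p.1 p.2).2.1 z]
    · intro p _
      simp only [(hf p.1 p.2).2.1 z]
  rw [Finset.sum_congr rfl fun z _ => h4 z, Finset.sum_const, Finset.card_univ, smul_eq_mul,
    Fintype.card_fun, Fintype.card_bool]
  push_cast
  ring

end

theorem lst (h1 : T_CUB) (h2 : T_FLG) (h3 : T_SUB) (h4 : T_CLG) : T_LST := by
  classical
  intro W X B Ω _ _ _ _ _ T U acc lev h S t d j w r k' K δ G hL hG ht hK hw hk hA'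
  set N : ℕ := Fintype.card X with hN
  set M : ℕ := K j with hM
  set S' : ℕ := S + 2 ^ (t * M) with hS'
  set tot : ℝ := (Fintype.card W : ℝ) * 2 ^ Fintype.card Ω with htot
  have htot0 : 0 ≤ tot := by positivity
  set cc : ℝ := ((N : ℝ) + 1) * ((S' : ℝ) + 1) ^ (d + 2) * 2 / 2 ^ w + 1 / 4 ^ r with hcc
  have hcc0 : 0 ≤ cc := by positivity
  set C1 : ℝ := 2 / qw w ^ (d + 2) with hC1
  have hC10 : 0 ≤ C1 := by
    have : 0 ≤ qw w := by unfold qw; positivity
    positivity
  -- the cube lemma for one point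
  have hone : ∀ p : W × (Ω → Bool), TyG acc lev h K (j + 1) (T p.1) (U p.1) p.2 →
      ((univ.filter fun z : X → Bool =>
        k' < (dfx acc h G (T p.1) (U p.1) (flG acc lev h (T p.1) (U p.1) j p.2 z)).card).card : ℝ) ≤
      C1 * (2 ^ N * cc + (N : ℝ) ^ r * ((univ.filter fun z : X → Bool =>
        M < (dfh acc lev h G j (T p.1) (U p.1)
          (flG acc lev h (T p.1) (U p.1) j p.2 z)).card).card : ℝ)) := by
    intro p hp
    obtain ⟨-, -, -, f4, f5⟩ := h2 X B Ω acc lev h j K G (T p.1) (U p.1) p.2 hL hG.2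
    obtain ⟨s1, s2⟩ := h3 X B Ω acc lev h j M S t d G (T p.1) (U p.1) p.2 hG.1 hK (fun s hs => by
      have := hp s (by omega)
      rw [hs] at this
      exact this)
    have hcl : ∀ f : (X → Bool) → Bool, Fm S (t * M) d f → Cl X S' (d + 1 + 1) f := by
      intro f hf
      have h5 := h4 X X S (t * M) d S' 0 f (fun v y => y v) (Nat.le_add_right _ _)
        (Nat.le_add_left _ _)
        (fun v => Or.inr ⟨v, fun y => rfl⟩) hf
      have e : 0 + d + 2 = d + 1 + 1 := by omega
      rw [e] at h5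
      exact h5
    have h6 := h1 X (d + 1) S' w r M k' (gz acc lev h G (T p.1) (U p.1) j p.2)
      (hz acc lev h G (T p.1) (U p.1) j p.2) (hcl _ s1) (fun x => hcl _ (s2 x)) hw hK hk
    have e1 : (univ.filter fun z : X → Bool =>
        k' < (dfx acc h G (T p.1) (U p.1) (flG acc lev h (T p.1) (U p.1) j p.2 z)).card) =
        univ.filter fun z : X → Bool => k' < (univ.filter fun x =>
          hz acc lev h G (T p.1) (U p.1) j p.2 x (flp z x) ≠
            gz acc lev h G (T p.1) (U p.1) j p.2 z).card :=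
      Finset.filter_congr fun z _ => by rw [f4 z]
    have e2 : (univ.filter fun z : X → Bool =>
        M < (dfh acc lev h G j (T p.1) (U p.1) (flG acc lev h (T p.1) (U p.1) j p.2 z)).card) =
        univ.filter fun z : X → Bool => M < (univ.filter fun x =>
          hz acc lev h G (T p.1) (U p.1) j p.2 x z ≠
            gz acc lev h G (T p.1) (U p.1) j p.2 z).card :=
      Finset.filter_congr fun z _ => by rw [f5 z]
    rw [e1, e2]
    exact h6
  -- summation
  set A : ℝ := ((univ.filter fun p : W × (Ω → Bool) =>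
    TyG acc lev h K (j + 1) (T p.1) (U p.1) p.2 ∧
      k' < (dfx acc h G (T p.1) (U p.1) p.2).card).card : ℝ) with hAdef
  set A' : ℝ := ((univ.filter fun p : W × (Ω → Bool) =>
    TyG acc lev h K (j + 1) (T p.1) (U p.1) p.2 ∧
      M < (dfh acc lev h G j (T p.1) (U p.1) p.2).card).card : ℝ) with hA'def
  have d1 : ∑ p ∈ univ.filter (fun p : W × (Ω → Bool) =>
        TyG acc lev h K (j + 1) (T p.1) (U p.1) p.2), ((univ.filter fun z : X → Bool =>
        k' < (dfx acc h G (T p.1) (U p.1) (flG acc lev h (T p.1) (U p.1) j p.2 z)).card).card : ℝ) =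
      2 ^ N * A := by
    refine Eq.trans ?_ ((dcount h2 T U acc lev h j K G hL hG.2
      (fun p e => k' < (dfx acc h G (T p) (U p) e).card)).trans ?_)
    · congr!
    · congr!
  have d2 : ∑ p ∈ univ.filter (fun p : W × (Ω → Bool) =>
        TyG acc lev h K (j + 1) (T p.1) (U p.1) p.2), ((univ.filter fun z : X → Bool =>
        M < (dfh acc lev h G j (T p.1) (U p.1)
          (flG acc lev h (T p.1) (U p.1) j p.2 z)).card).card : ℝ) =
      2 ^ N * A' := by
    refine Eq.trans ?_ ((dcount h2 T U acc lev h j K G hL hG.2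
      (fun p e => M < (dfh acc lev h G j (T p) (U p) e).card)).trans ?_)
    · congr!
    · congr!
  have hcard : ((univ.filter (fun p : W × (Ω → Bool) =>
      TyG acc lev h K (j + 1) (T p.1) (U p.1) p.2)).card : ℝ) ≤ tot := by
    have h7 : (univ.filter (fun p : W × (Ω → Bool) =>
      TyG acc lev h K (j + 1) (T p.1) (U p.1) p.2)).card ≤ Fintype.card W * 2 ^ Fintype.card Ω := by
      refine (Finset.card_le_univ _).trans (le_of_eq ?_)
      rw [Fintype.card_prod, Fintype.card_fun, Fintype.card_bool]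
    rw [htot]
    exact_mod_cast h7
  have hsum := Finset.sum_le_sum (s := univ.filter (fun p : W × (Ω → Bool) =>
      TyG acc lev h K (j + 1) (T p.1) (U p.1) p.2)) fun p hp => hone p (Finset.mem_filter.mp hp).2
  rw [d1, ← Finset.mul_sum, Finset.sum_add_distrib, Finset.sum_const, nsmul_eq_mul,
    ← Finset.mul_sum, d2] at hsum
  have h2N : (0 : ℝ) < 2 ^ N := by positivity
  have h8 : 2 ^ N * A ≤ 2 ^ N * (C1 * ((cc + (N : ℝ) ^ r * δ) * tot)) := by
    refine hsum.trans ?_
    have h9 : C1 * (((univ.filter (fun p : W × (Ω → Bool) =>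
        TyG acc lev h K (j + 1) (T p.1) (U p.1) p.2)).card : ℝ) * (2 ^ N * cc) +
        (N : ℝ) ^ r * (2 ^ N * A')) ≤
        C1 * (tot * (2 ^ N * cc) + (N : ℝ) ^ r * (2 ^ N * (δ * tot))) := by
      refine mul_le_mul_of_nonneg_left (add_le_add ?_ ?_) hC10
      · exact mul_le_mul_of_nonneg_right hcard (by positivity)
      · refine mul_le_mul_of_nonneg_left ?_ (by positivity)
        exact mul_le_mul_of_nonneg_left hA' h2N.le
    refine h9.trans (le_of_eq ?_)
    ring
  have h10 := le_of_mul_le_mul_left h8 h2N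
  refine h10.trans (le_of_eq ?_)
  rw [hcc, hS']
  push_cast
  ring

end Pool.Agent.H77.OQ.LST
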