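import Pool.Agent.H70.OQ.Targets

/-!
# MP_0f8dca_lc: module STH
-/

set_option autoImplicit false

namespace Pool.Agent.H77.OQ.STH

open Finset Pool.Agent.H6.NB Pool.Agent.H70.OQ

/-- the cardinality of a filter does not depend on the decidability instances -/
lemma card_filter_inst {α : Type*} (s : Finset α) (p q : α → Prop) (i1 : DecidablePred p)
    (i2 : DecidablePred q) (h : ∀ x ∈ s, (p x ↔ q x)) :
    (@Finset.filter α p i1 s).card = (@Finset.filter α q i2 s).card := by
  refine congrArg Finset.card ?_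
  ext x
  rw [Finset.mem_filter, Finset.mem_filter]
  exact and_congr_right fun hx => h x hx

section

variable {X B Ω : Type} {acc : Ω → Gn B Ω} {lev : Ω → ℕ} {h : ℕ}

lemma dlG_congr (h1 : T_EXG) (hL : Lvg acc lev h) {j : ℕ} (T U : B → Bool)
    {e e' : Ω → Bool} (he : ∀ s', lev s' < j → e s' = e' s') (s : Ω) (hs : lev s < j) :
    dlG acc h T U e s = dlG acc h T U e' s :=
  (h1 B Ω acc lev h hL).2.2.2 T U e e' s fun s' hs' => he s' (hs'.trans hs)

lemma dsG_congr [Fintype X] (h1 : T_EXG) (hL : Lvg acc lev h) {j : ℕ} (T : B → Bool)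
    (U : X → B → Bool) {e e' : Ω → Bool} (he : ∀ s', lev s' < j → e s' = e' s') (s : Ω)
    (hs : lev s < j) : dsG acc h T U e s = dsG acc h T U e' s := by
  unfold dsG
  refine Finset.filter_congr fun x _ => ?_
  rw [dlG_congr h1 hL T (U x) he s hs]

lemma tyG_congr [Fintype X] (h1 : T_EXG) (hL : Lvg acc lev h) {K : ℕ → ℕ} {j : ℕ} (T : B → Bool)
    (U : X → B → Bool) {e e' : Ω → Bool} (he : ∀ s', lev s' < j → e s' = e' s') :
    TyG acc lev h K j T U e ↔ TyG acc lev h K j T U e' := by
  unfold TyG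
  refine forall_congr' fun s => ?_
  refine imp_congr_right fun hs => ?_
  rw [dsG_congr h1 hL T U he s hs]

lemma exG_congr (h1 : T_EXG) (hL : Lvg acc lev h) {j : ℕ} (T U : B → Bool)
    {e e' : Ω → Bool} (he : ∀ s', lev s' < j → e s' = e' s') (s : Ω) (hs : lev s < j) :
    exG acc h T U e s = exG acc h T U e' s := by
  have h3 := dlG_congr h1 hL T U he s hs
  unfold dlG at h3
  rw [he s hs] at h3
  revert h3
  cases e' s <;> cases exG acc h T U e s <;> cases exG acc h T U e' s <;> simp

lemma dfx_congr [Fintype X] (h1 : T_EXG) (hL : Lvg acc lev h) {j : ℕ} (G : Gn B Ω)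
    (hG : LocG lev j G) (T : B → Bool) (U : X → B → Bool)
    {e e' : Ω → Bool} (he : ∀ s', lev s' < j → e s' = e' s') :
    dfx acc h G T U e = dfx acc h G T U e' := by
  unfold dfx
  refine Finset.filter_congr fun x _ => ?_
  rw [hG T e e' he, hG (U x) (exG acc h T (U x) e) (exG acc h T (U x) e')
      fun s hs => exG_congr h1 hL T (U x) he s hs]

/-- the answers of the levels from `j` on are fixed -/
def fixG (lev : Ω → ℕ) (j : ℕ) (G : Gn B Ω) (a : Ω → Bool) : Gn B Ω :=
  fun T e => G T (fun s => if lev s < j then e s else a s)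

lemma fj_fixG (h2 : T_FMS) {S t d j j' : ℕ} (G : Gn B Ω) (hG : Fj lev S t d j' G) (a : Ω → Bool) :
    Fj lev S t d j (fixG lev j G a) := by
  refine ⟨?_, ?_⟩
  · have h3 := h2 (B ⊕ Ω) (B ⊕ Ω) S t 1 d
      (fun y : B ⊕ Ω → Bool => G (fun b => y (.inl b)) fun s => y (.inr s))
      (fun v y => Sum.casesOn (motive := fun _ => Bool) v (fun b => y (.inl b))
        (fun s => if lev s < j then y (.inr s) else a s)) ?_ hG.1
    · rw [Nat.mul_one] at h3
      exact h3
    · rintro (b | s)
      · exact ⟨.node (.inl b) (.leaf false) (.leaf true), by simp [Pool.Agent.H68.AC.DT.depth],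
          fun y => by simp [Pool.Agent.H68.AC.DT.eval]⟩
      · by_cases hs : lev s < j
        · exact ⟨.node (.inr s) (.leaf false) (.leaf true), by simp [Pool.Agent.H68.AC.DT.depth],
            fun y => by simp [Pool.Agent.H68.AC.DT.eval, hs]⟩
        · exact ⟨.leaf (a s), by simp [Pool.Agent.H68.AC.DT.depth],
            fun y => by simp [Pool.Agent.H68.AC.DT.eval, hs]⟩
  · intro T e e' he
    unfold fixG
    congr 1
    funext s
    by_cases hs : lev s < j
    · rw [if_pos hs, if_pos hs, he s hs]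
    · rw [if_neg hs, if_neg hs]

end

theorem sth (h1 : T_EXG) (h2 : T_FMS) (h3 : Pool.Agent.H6.NB.T_SWA) : T_STH := by
  classical
  intro W X B Ω _ _ _ _ _ T U acc lev h S t d j k K δ hL hj hyp G hG
  set tot : ℝ := δ * (Fintype.card W * 2 ^ Fintype.card Ω) with htot
  have h0 : 0 ≤ tot := (Nat.cast_nonneg _).trans (hyp (fixG lev j G fun _ => false)
    (fj_fixG h2 G hG _))
  have hswa := h3 W Ω (fun s => ¬ lev s < j)
    (fun p e a => TyG acc lev h K j (T p) (U p) e ∧
      k < (dfx acc h (fixG lev j G a) (T p) (U p) e).card) 1 ⌊tot⌋₊ ?_ ?_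
  · rw [Nat.mul_one] at hswa
    refine (Nat.cast_le (α := ℝ).mpr ?_).trans (Nat.floor_le h0)
    refine le_trans (b := (univ.filter fun p : W × (Ω → Bool) =>
      TyG acc lev h K j (T p.1) (U p.1) p.2 ∧
        k < (dfx acc h (fixG lev j G p.2) (T p.1) (U p.1) p.2).card).card) ?_
        (le_trans (le_of_eq ?_) hswa)
    swap
    · exact card_filter_inst _ _ _ _ _ fun _ _ => Iff.rfl
    refine Finset.card_le_card ?_
    intro p hp
    rw [Finset.mem_filter] at hp ⊢
    refine ⟨hp.1, fun s hs => hp.2.1 s (by omega), ?_⟩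
    have h4 : dfx acc h (fixG lev j G p.2) (T p.1) (U p.1) p.2 =
        dfh acc lev h G j (T p.1) (U p.1) p.2 := by
      unfold dfh dfx fixG
      refine Finset.filter_congr fun x _ => ?_
      simp only [ite_self]
    rw [h4]
    exact hp.2.2
  · intro p e e' a a' he ha
    have hfix : fixG (B := B) lev j G a = fixG lev j G a' := by
      funext T' e''
      unfold fixG
      congr 1
      funext s
      by_cases h7 : lev s < j
      · rw [if_pos h7, if_pos h7]
      · rw [if_neg h7, if_neg h7, ha s h7]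
    have he' : ∀ s', lev s' < j → e s' = e' s' := fun s' hs' => he s' (by simpa using hs')
    rw [hfix, tyG_congr h1 hL (T p) (U p) he',
      dfx_congr h1 hL (fixG lev j G a') (fj_fixG h2 G hG a').2 (T p) (U p) he']
  · intro a
    rw [Nat.mul_one]
    refine Nat.le_floor ?_
    refine le_trans (le_of_eq ?_) (hyp (fixG lev j G a) (fj_fixG h2 G hG a))
    exact congrArg Nat.cast (card_filter_inst _ _ _ _ _ fun _ _ => Iff.rfl)

end Pool.Agent.H77.OQ.STH
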